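import Pool.Agent.H39.Newt2.Stmts

/-! # Project NEWTON2, module ZCP: the coefficients of the motivic zeta function -/

set_option autoImplicit false

namespace Pool.Newt2

open MvPolynomial Pool.Agent.H39.MonoR Pool.Agent.H75.Mono Pool.Newt

/-- the capped order vector of a tuple of power series -/
theorem ZCP_exists {σ : Type} [Fintype σ] (d : ℕ) (x : σ → PowerSeries ℂ) :
    ∃ u : σ → ℕ, (∀ j, u j < d + 2) ∧ ∀ j, (∀ l, l < u j → PowerSeries.coeff l (x j) = 0) ∧
      (j ∉ cpd (d + 1) u → PowerSeries.coeff (u j) (x j) ≠ 0) := by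
  classical
  have h : ∀ j, ∃ n : ℕ, n < d + 2 ∧ (∀ l, l < n → PowerSeries.coeff l (x j) = 0) ∧
      (¬ d + 1 ≤ n → PowerSeries.coeff n (x j) ≠ 0) := by
    intro j
    by_cases h : ∃ n, PowerSeries.coeff n (x j) ≠ 0
    · by_cases h1 : Nat.find h ≤ d
      · refine ⟨Nat.find h, by omega, fun l hl => ?_, fun _ => Nat.find_spec h⟩
        have := Nat.find_min h hl
        push Not at this
        exact this
      · refine ⟨d + 1, by omega, fun l hl => ?_, fun h2 => absurd le_rfl h2⟩
        have := Nat.find_min h (m := l) (by omega)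
        push Not at this
        exact this
    · push Not at h
      exact ⟨d + 1, by omega, fun l _ => h l, fun h2 => absurd le_rfl h2⟩
  choose u hu using h
  refine ⟨u, fun j => (hu j).1, fun j => ⟨(hu j).2.1, fun hj => (hu j).2.2 fun h => hj ?_⟩⟩
  simp only [cpd, Finset.mem_filter, Finset.mem_univ, true_and]
  exact h

/-- the capped order vector is unique -/
theorem ZCP_unique {σ : Type} [Fintype σ] (d : ℕ) (x : σ → PowerSeries ℂ) {u u' : σ → ℕ}
    (hu : ∀ j, u j < d + 2) (hu' : ∀ j, u' j < d + 2)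
    (h : ∀ j, (∀ l, l < u j → PowerSeries.coeff l (x j) = 0) ∧
      (j ∉ cpd (d + 1) u → PowerSeries.coeff (u j) (x j) ≠ 0))
    (h' : ∀ j, (∀ l, l < u' j → PowerSeries.coeff l (x j) = 0) ∧
      (j ∉ cpd (d + 1) u' → PowerSeries.coeff (u' j) (x j) ≠ 0)) : u = u' := by
  funext j
  have h1 : j ∉ cpd (d + 1) u ↔ u j < d + 1 := by
    simp only [cpd, Finset.mem_filter, Finset.mem_univ, true_and, not_le]
  have h2 : j ∉ cpd (d + 1) u' ↔ u' j < d + 1 := by
    simp only [cpd, Finset.mem_filter, Finset.mem_univ, true_and, not_le]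
  have a1 := hu j
  have a2 := hu' j
  rcases lt_trichotomy (u j) (u' j) with h3 | h3 | h3
  · exact absurd ((h' j).1 (u j) h3) ((h j).2 (h1.2 (by omega)))
  · exact h3
  · exact absurd ((h j).1 (u' j) h3) ((h' j).2 (h2.2 (by omega)))

theorem sZcp (hArc : SArc) (hCla : SCla) (hClb : SClb) : SZcp := by
  classical
  intro k _ _ σ I _ _ _ a c hndg d
  rw [← Zt_pt1]
  unfold Zt
  rw [PowerSeries.coeff_mk]
  set M := 2 * d + 3 with hM
  have hdM : d < M := by omega
  let U : Finset (σ → ℕ) := Fintype.piFinset fun _ : σ => Finset.range (d + 2)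
  let Y : Finset (σ → ℕ) := U.filter fun u => Nw a u ≤ d
  have hU : ∀ u, u ∈ U ↔ ∀ j, u j < d + 2 := by
    intro u
    simp only [U, Fintype.mem_piFinset, Finset.mem_range]
  have h1 := ZET_mo_hit (poly a c) hdM
  have e1 : {φ : σ × Fin M → ℂ | Hit (poly a c) d φ 1} = {φ : σ × Fin M → ℂ | ∃ u ∈ Y,
      φ ∈ {φ : σ × Fin M → ℂ | φ ∈ Cyl u (cpd (d + 1) u) ∧ Hit (poly a c) d φ 1}} := by
    ext φ
    simp only [Set.mem_ofPred_eq]
    constructor
    · intro h
      obtain ⟨u, hu1, hu2⟩ := ZCP_exists d (arc φ)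
      refine ⟨u, ?_, hu2, h⟩
      simp only [Y, Finset.mem_filter]
      refine ⟨(hU u).2 hu1, ?_⟩
      by_contra hlt
      have h2 := (hArc k σ I a c u (arc φ) fun j => (hu2 j).1).1 d (by omega)
      have h3 := h d le_rfl
      rw [if_pos rfl] at h3
      unfold arcEval at h3
      rw [h2] at h3
      exact zero_ne_one h3
    · rintro ⟨u, _, _, h⟩
      exact h
  rw [e1, mo_biUnion Y (A := fun u => {φ : σ × Fin M → ℂ |
    φ ∈ Cyl u (cpd (d + 1) u) ∧ Hit (poly a c) d φ 1})
    (fun u _ => ZET_icons_cyl a c _ _ d)] at h1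
  swap
  · intro u hu u' hu' hne
    rw [Set.disjoint_left]
    rintro φ ⟨h2, _⟩ ⟨h3, _⟩
    simp only [Y, Finset.mem_filter] at hu hu'
    exact hne (ZCP_unique d (arc φ) ((hU u).1 hu.1) ((hU u').1 hu'.1) h2 h3)
  -- the value of a piece
  have hpiece : ∀ u ∈ Y, mo k {φ : σ × Fin M → ℂ |
      φ ∈ Cyl u (cpd (d + 1) u) ∧ Hit (poly a c) d φ 1} =
      ↑(Lu k ^ ((Fintype.card σ * (M - 1) : ℕ) : ℤ)) *
        (if Nw a u = d then
          ↑(Lu k ^ (-((∑ j, u j : ℕ) : ℤ))) *
            mo k {z : σ → ℂ | (∀ j, j ∉ cpd (d + 1) u → z j ≠ 0) ∧ aeval z (fpoly a c u) = 1}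
        else if Nw a u < d then
          ↑(Lu k ^ (-((∑ j, u j : ℕ) : ℤ) - ((d - Nw a u : ℕ) : ℤ))) *
            mo k {z : σ → ℂ | (∀ j, j ∉ cpd (d + 1) u → z j ≠ 0) ∧ aeval z (fpoly a c u) = 0}
        else 0) := by
    intro u hu
    simp only [Y, Finset.mem_filter] at hu
    have hu1 := (hU u).1 hu.1
    split_ifs with h4 h5
    · have h5 := hCla k σ I a c u (cpd (d + 1) u) d M h4
        (fun j => by have := hu1 j; omega) hdM
      rw [h5, sub_eq_add_neg, zpow_add, Units.val_mul, mul_assoc]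
    · have hfree : ∀ j ∈ cpd (d + 1) u, ∀ i ∈ face a u, a i j = 0 := by
        intro j hj i hi
        by_contra h0
        simp only [cpd, Finset.mem_filter, Finset.mem_univ, true_and] at hj
        have h6 : u j * a i j ≤ dot u (a i) :=
          Finset.single_le_sum (f := fun j => u j * a i j) (fun _ _ => Nat.zero_le _)
            (Finset.mem_univ j)
        have h7 : u j ≤ u j * a i j := Nat.le_mul_of_pos_right _ (Nat.pos_of_ne_zero h0)
        rw [← Nw_eq hi] at h6
        omega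
      have hnd : ∀ z : σ → ℂ, (∀ j, j ∉ cpd (d + 1) u → z j ≠ 0) →
          aeval z (fpoly a c u) = 0 →
          ∃ l, aeval z (pderiv l (fpoly a c u)) ≠ 0 := by
        intro z hz hz0
        obtain ⟨h6, h7⟩ := ZET_aeval_free a c u (cpd (d + 1) u) hfree z
          (fun j => if j ∈ cpd (d + 1) u then 1 else z j) (fun j hj => by simp [hj])
        rw [h6] at hz0
        obtain ⟨l, hl⟩ := hndg u (fun j => if j ∈ cpd (d + 1) u then 1 else z j)
          (fun j => by
            by_cases hj : j ∈ cpd (d + 1) u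
            · simp [hj]
            · simp [hj, hz j hj]) hz0
        exact ⟨l, by rw [h7]; exact hl⟩
      have h6 := hClb k σ I a c u (cpd (d + 1) u) d M h5
        (fun j => by have := hu1 j; omega) hdM hnd
      have h7 : mo k {φ : σ × Fin M → ℂ |
          φ ∈ Cyl u (cpd (d + 1) u) ∧ Hit (poly a c) d φ 1} =
          (mo k {φ : σ × Fin M → ℂ |
          φ ∈ Cyl u (cpd (d + 1) u) ∧ Hit (poly a c) d φ 1} *
          ↑(Lu k ^ ((d - Nw a u : ℕ) : ℤ))) *
          ↑(Lu k ^ (-((d - Nw a u : ℕ) : ℤ))) := by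
        rw [mul_assoc, ← Units.val_mul, ← zpow_add, add_neg_cancel, zpow_zero, Units.val_one,
          mul_one]
      rw [h7, h6, sub_eq_add_neg, zpow_add, Units.val_mul, sub_eq_add_neg, zpow_add,
        Units.val_mul]
      ring
    · exact absurd (lt_of_le_of_ne hu.2 h4) h5
  rw [Finset.sum_congr rfl hpiece, ZET_mul_sum] at h1
  have h2 := ((Units.mul_right_inj _).1 h1).symm
  rw [h2]
  show ∑ u ∈ U.filter (fun u => Nw a u ≤ d), _ = _
  rw [Finset.sum_filter]
  refine Finset.sum_congr (by ext u; simp only [U, Fintype.mem_piFinset]) fun u _ => ?_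
  split_ifs with h3 h4 h5 h6 h7
  all_goals first
    | rfl
    | (exfalso; omega)

end Pool.Newt2
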